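import Mathlib

/-!
A 7-tournament has at most 24 Hamiltonian circuits and 24 is attained, but no 7-tournament has
exactly 23 Hamiltonian circuits.
-/

set_option autoImplicit false
set_option maxRecDepth 100000

namespace Pool.Agent.Results.MP_9038fc_co.Gap7

open Equiv

/-- `T` is a tournament on `Fin n`: no loops, exactly one arc between two distinct vertices. -/
def IsTournament {n : ℕ} (T : Fin n → Fin n → Prop) : Prop :=
  (∀ u, ¬ T u u) ∧ ∀ u v, u ≠ v → (T u v ↔ ¬ T v u)

/-- The Hamiltonian circuits of `T`, each given by its set of arcs: the arcs `i → σ i` of a cyclic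
permutation `σ` moving every vertex, all of whose arcs are arcs of `T`. -/
def hamCircuits {n : ℕ} (T : Fin n → Fin n → Prop) : Set (Set (Fin n × Fin n)) :=
  {A | ∃ σ : Perm (Fin n), σ.IsCycle ∧ σ.support = Finset.univ ∧ (∀ i, T i (σ i)) ∧
    A = {p | p.2 = σ p.1}}

/-- The number of distinct Hamiltonian circuits of `T`. -/
noncomputable def numHam {n : ℕ} (T : Fin n → Fin n → Prop) : ℕ := (hamCircuits T).ncard

/-- The largest number of Hamiltonian circuits of an `n`-tournament. -/
noncomputable def hMax (n : ℕ) : ℕ :=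
  sSup {h | ∃ T : Fin n → Fin n → Prop, IsTournament T ∧ numHam T = h}

def S {n : ℕ} (T : Fin n → Fin n → Prop) : Set (Perm (Fin n)) :=
  {σ | σ.IsCycle ∧ σ.support = Finset.univ ∧ ∀ i, T i (σ i)}

lemma numHam_eq {n : ℕ} (T : Fin n → Fin n → Prop) : numHam T = (S T).ncard := by
  have hinj : Function.Injective
      (fun σ : Perm (Fin n) => ({p | p.2 = σ p.1} : Set (Fin n × Fin n))) := by
    intro σ τ h
    ext i
    have : ((i, σ i) : Fin n × Fin n) ∈ ({p | p.2 = τ p.1} : Set (Fin n × Fin n)) := by
      have h' : ({p | p.2 = σ p.1} : Set (Fin n × Fin n)) = {p | p.2 = τ p.1} := h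
      rw [← h']; simp
    simp only [Set.mem_ofPred_eq] at this
    rw [this]
  rw [numHam, ← Set.ncard_image_of_injective (S T) hinj]
  congr 1
  ext A
  simp only [hamCircuits, S, Set.mem_ofPred_eq, Set.mem_image]
  constructor
  · rintro ⟨σ, h1, h2, h3, h4⟩
    exact ⟨σ, ⟨h1, h2, h3⟩, h4.symm⟩
  · rintro ⟨σ, ⟨h1, h2, h3⟩, h4⟩
    exact ⟨σ, h1, h2, h3, h4.symm⟩

def enc (σ : Perm (Fin 7)) : ℕ := ((List.finRange 7).map (fun i => (σ i).val * 8 ^ i.val)).sum

def P : List (Perm (Fin 7)) :=
  (List.permutations' ([1,2,3,4,5,6] : List (Fin 7))).map (fun l => List.formPerm (0 :: l))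

def Lc : List ℕ := [
  219345, 219226, 217826, 202986, 55538, 481474, 218393, 217875, 218211, 202027, 54579, 480515,
  207193, 205667, 203091, 206955, 43379, 469315, 88473, 86947, 72107, 55699, 88179, 350595,
  743449, 741923, 727083, 579635, 481299, 743491, 211729, 211554, 203546, 209706, 47922, 473858,
  207585, 203476, 207452, 205548, 43764, 469700, 210273, 202076, 209748, 210028, 46452, 472388,
  80801, 72604, 78764, 48020, 80500, 342916, 735777, 727580, 733740, 571956, 473620, 735812,
  122129, 121954, 105770, 56602, 119602, 384258, 109921, 105812, 109676, 44380, 107380, 372036,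
  89313, 72940, 56532, 89180, 86772, 351428, 120225, 103852, 54684, 119700, 119924, 382340,
  646177, 629804, 580636, 643636, 384020, 646212, 1003793, 1003618, 987434, 839986, 479514, 1004290,
  991585, 987476, 991340, 827764, 467292, 992068, 872865, 856492, 840084, 872564, 348572, 873348,
  741601, 725228, 577780, 479444, 741468, 742084, 1004577, 988204, 840756, 480284, 1004052, 1004612,
  158417, 158298, 156394, 60130, 137970, 420546, 157017, 156499, 156779, 58723, 136563, 419139,
  92953, 90923, 60179, 92771, 72499, 355075, 142233, 140203, 43939, 138131, 141939, 404355,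
  682521, 680491, 584227, 662067, 420371, 682563, 125265, 125034, 59738, 123746, 104818, 387394,
  92393, 59605, 92253, 90853, 71925, 354501, 124201, 58653, 123669, 124005, 103733, 386309,
  108969, 43421, 107429, 104853, 108661, 371077, 649257, 583709, 647717, 628789, 387093, 649285,
  146769, 146538, 48482, 138586, 144242, 408898, 81193, 48405, 80997, 72989, 78645, 343301,
  142569, 44261, 138453, 142429, 140021, 404677, 144809, 46501, 136605, 144277, 144501, 406917,
  670761, 572453, 662557, 668213, 408597, 670789, 942417, 942186, 844130, 921970, 418138, 942914,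
  876841, 844053, 876645, 856373, 352541, 877317, 926121, 827813, 922005, 925813, 401821, 926597,
  680169, 581861, 659701, 418005, 680029, 680645, 943145, 844837, 922677, 418845, 942613, 943173,
  1247953, 1247834, 1245930, 1084146, 461538, 1252034, 1246553, 1246035, 1246315, 1082739, 460131, 1250627,
  1117081, 1115051, 1084307, 1116787, 330659, 1121155, 723737, 721707, 559923, 461587, 723555, 727811,
  1255961, 1253931, 1092147, 469539, 1251859, 1256003, 1150289, 1150058, 1084762, 1147762, 363874, 1154370,
  1117417, 1084629, 1117277, 1114869, 330981, 1121477, 1148329, 1082781, 1147797, 1148021, 361893, 1152389,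
  625961, 560413, 623413, 363797, 625765, 630021, 1158185, 1092637, 1155637, 371749, 1154069, 1158213,
  985425, 985194, 821618, 461146, 983906, 989506, 854441, 821653, 854133, 330141, 852901, 858501,
  723177, 559349, 461013, 723037, 721637, 727237, 984361, 820533, 460061, 983829, 984165, 988421,
  993321, 829493, 469021, 991781, 989205, 993349, 1257809, 1257578, 1094002, 471394, 1249626, 1258306,
  1126825, 1094037, 1126517, 340389, 1118621, 1127301, 733481, 569653, 471317, 733285, 725277, 733957,
  1253609, 1089781, 467173, 1249493, 1253469, 1254085, 1258537, 1094709, 472101, 1250333, 1258005, 1258565,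
  1337553, 1337434, 1336034, 1317106, 289002, 1370306, 1336601, 1336083, 1336419, 1316147, 288043, 1369347,
  1321369, 1319843, 1317267, 1321075, 272811, 1354115, 551257, 549731, 530803, 289107, 551019, 584003,
  1402905, 1401379, 1382451, 354347, 1370131, 1402947, 1326353, 1326178, 1318170, 1323826, 277802, 1359106,
  1322209, 1318100, 1322076, 1319668, 273644, 1354948, 1324449, 1316252, 1323924, 1324148, 275884, 1357188,
  540001, 531804, 537460, 277844, 539756, 572740, 1391649, 1383452, 1389108, 343084, 1358868, 1391684,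
  813841, 813666, 793394, 289562, 811818, 846594, 797601, 793492, 797300, 273308, 795564, 830340,
  551649, 531188, 289492, 551516, 549612, 584388, 812385, 791924, 288092, 811860, 812140, 845124,
  879137, 858676, 354844, 877100, 846356, 879172, 1433873, 1433698, 1413426, 385322, 1368346, 1434370,
  1417633, 1413524, 1417332, 369068, 1352092, 1418116, 647521, 627060, 385364, 647276, 581980, 648004,
  1401057, 1380596, 352492, 1368276, 1400924, 1401540, 1434657, 1414196, 386092, 1369116, 1434132, 1434692,
  1072337, 1072218, 1069810, 285922, 1055978, 1105090, 1070489, 1069971, 1070195, 284067, 1054123, 1103235,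
  548121, 545587, 285971, 547939, 531755, 580867, 1060185, 1057651, 273763, 1056083, 1059947, 1092931,
  1137689, 1135155, 351267, 1121323, 1104915, 1137731, 809361, 809074, 285082, 807842, 793002, 842114,
  547057, 284886, 546910, 545510, 530670, 579782, 808241, 283934, 807702, 808038, 791854, 840966,
  797041, 272734, 795494, 792918, 796782, 829766, 874545, 350238, 872998, 858158, 841750, 874566,
  1063825, 1063538, 277410, 1055642, 1061802, 1096578, 539441, 277270, 539238, 531230, 537390, 572166,
  1059569, 273126, 1055446, 1059422, 1057518, 1092294, 1062257, 275814, 1054046, 1061718, 1061998, 1094982,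
  1129009, 342566, 1120798, 1126958, 1096214, 1129030, 1167761, 1167474, 381346, 1151402, 1102234, 1168258,
  643377, 381206, 643174, 626990, 577822, 643846, 1155441, 368998, 1151318, 1155182, 1089886, 1155910,
  1134833, 348390, 1118446, 1102038, 1134686, 1135302, 1168433, 381990, 1152046, 1102878, 1167894, 1168454,
  1445073, 1444954, 1442546, 396522, 1346786, 1449154, 1443225, 1442707, 1442931, 394667, 1344931, 1447299,
  658777, 656243, 396627, 658539, 560483, 662851, 1379609, 1377075, 331051, 1346835, 1379427, 1383683,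
  1453081, 1450547, 404523, 1354787, 1448979, 1453123, 920465, 920178, 396186, 918442, 822178, 924546,
  658161, 395990, 658014, 656110, 559846, 662214, 918897, 394590, 918358, 918638, 820582, 922950,
  854833, 330526, 852782, 822038, 854630, 858886, 928305, 403998, 926254, 829990, 924182, 928326,
  1411473, 1411186, 362922, 1345946, 1409954, 1415554, 625009, 362838, 624750, 559454, 623462, 629062,
  1378545, 329966, 1345750, 1378398, 1376998, 1382598, 1410353, 361774, 1344798, 1409814, 1410150, 1414406,
  1419313, 370734, 1353758, 1417766, 1415190, 1419334, 1454481, 1454194, 405930, 1356194, 1446298, 1454978,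
  668017, 405846, 667758, 569702, 659806, 668486, 1388849, 340270, 1356054, 1388646, 1380638, 1389318,
  1450225, 401646, 1351910, 1446102, 1450078, 1450694, 1455153, 406574, 1356838, 1446942, 1454614, 1455174]

lemma P_enc : P.map enc = Lc := by decide +kernel

def nd : List ℕ → Bool
  | [] => true
  | a :: l => l.all (fun b => !(Nat.beq a b)) && nd l

lemma nd_spec : ∀ l : List ℕ, nd l = true → l.Nodup := by
  intro l
  induction l with
  | nil => intro _; exact List.nodup_nil
  | cons a l ih =>
    intro h
    simp only [nd, Bool.and_eq_true, List.all_eq_true] at h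
    refine List.nodup_cons.2 ⟨fun ha => ?_, ih h.2⟩
    have := h.1 a ha
    simp at this

lemma Lc_nodup : Lc.Nodup := nd_spec _ (by decide +kernel)

lemma P_nodup : P.Nodup :=
  List.Nodup.of_map enc (P_enc.symm ▸ Lc_nodup)

lemma Lc_length : Lc.length = 720 := by decide +kernel

lemma P_length : P.length = 720 :=
  (List.length_map (as := P) enc).symm.trans ((congrArg List.length P_enc).trans Lc_length)

/-- decoding test -/
def tst (x u v : ℕ) : Bool := Nat.beq ((x >>> (3 * u)) % 8) v

lemma P_tst : ∀ σ ∈ P, ∀ u v : Fin 7, tst (enc σ) u.val v.val = decide (σ u = v) := by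
  intro σ _ u v
  have key : (enc σ >>> (3 * u.val)) % 8 = (σ u).val := by
    have h0 := (σ 0).isLt
    have h1 := (σ 1).isLt
    have h2 := (σ 2).isLt
    have h3 := (σ 3).isLt
    have h4 := (σ 4).isLt
    have h5 := (σ 5).isLt
    have h6 := (σ 6).isLt
    have he : enc σ = (σ 0).val + (σ 1).val * 8 + (σ 2).val * 64 + (σ 3).val * 512
        + (σ 4).val * 4096 + (σ 5).val * 32768 + (σ 6).val * 262144 := by
      simp [enc, List.finRange_succ]; ring
    rw [he, Nat.shiftRight_eq_div_pow]
    fin_cases u <;> simp <;> omega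
  rw [tst, key, Bool.eq_iff_iff]
  simp [Fin.ext_iff]

lemma P_cyc : ∀ σ ∈ P, σ.IsCycle ∧ σ.support = Finset.univ := by
  intro σ hσ
  simp only [P, List.mem_map] at hσ
  obtain ⟨l, hl, rfl⟩ := hσ
  have hp : List.Perm l [1,2,3,4,5,6] := List.mem_permutations'.1 hl
  have hp' : List.Perm (0 :: l) [0,1,2,3,4,5,6] := hp.cons 0
  have hnd : (0 :: l).Nodup := hp'.nodup_iff.2 (by decide)
  have hlen : (0 :: l).length = 7 := by rw [hp'.length_eq]; rfl
  refine ⟨List.isCycle_formPerm hnd (by omega), ?_⟩
  rw [List.support_formPerm_of_nodup _ hnd]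
  · rw [List.toFinset_eq_of_perm _ _ hp']; decide
  · intro x hx
    rw [hx] at hlen
    simp at hlen

lemma cyc_iff (σ : Perm (Fin 7)) :
    (σ.IsCycle ∧ σ.support = Finset.univ) ↔ σ.cycleType = {7} := by
  constructor
  · rintro ⟨h1, h2⟩
    rw [h1.cycleType, h2]; simp
  · intro h
    have h1 : σ.IsCycle := by
      rw [← Perm.card_cycleType_eq_one, h]; simp
    refine ⟨h1, ?_⟩
    have h2 := h1.cycleType
    rw [h] at h2
    have h3 : σ.support.card = 7 := by simpa using h2.symm
    exact Finset.eq_univ_of_card _ (by simpa using h3)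

lemma mem_P (σ : Perm (Fin 7)) : σ ∈ P ↔ (σ.IsCycle ∧ σ.support = Finset.univ) := by
  classical
  refine ⟨P_cyc σ, ?_⟩
  have hc := Perm.card_of_cycleType_singleton (α := Fin 7) (n := 7) (by norm_num) (by simp)
  have hsub : P.toFinset ⊆ Finset.univ.filter (fun g : Perm (Fin 7) => g.cycleType = {7}) := by
    intro τ hτ
    rw [List.mem_toFinset] at hτ
    simp only [Finset.mem_filter, Finset.mem_univ, true_and]
    exact (cyc_iff τ).1 (P_cyc τ hτ)
  have hcard : (Finset.univ.filter (fun g : Perm (Fin 7) => g.cycleType = {7})).card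
      ≤ P.toFinset.card := by
    rw [List.toFinset_card_of_nodup P_nodup, P_length]
    have : (Finset.univ.filter (fun g : Perm (Fin 7) => g.cycleType = {7})).card
      = (7 - 1).factorial * (Fintype.card (Fin 7)).choose 7 := by convert hc
    rw [this]; simp [Nat.factorial]
  have heq := Finset.eq_of_subset_of_card_le hsub hcard
  intro h
  rw [← List.mem_toFinset, heq]
  simp only [Finset.mem_filter, Finset.mem_univ, true_and]
  exact (cyc_iff σ).1 h

open Classical in
lemma ncard_S (T : Fin 7 → Fin 7 → Prop) :
    (S T).ncard = (P.filter (fun σ => decide (∀ i, T i (σ i)))).length := by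
  have hnd : (P.filter (fun σ => decide (∀ i, T i (σ i)))).Nodup := P_nodup.filter _
  rw [← List.toFinset_card_of_nodup hnd, ← Set.ncard_coe_finset]
  congr 1
  ext σ
  simp only [S, Set.mem_ofPred_eq, List.coe_toFinset, List.mem_filter, mem_P, decide_eq_true_eq]
  tauto

/-- pruned search over the orientations of the remaining pairs -/
def go : List (ℕ × ℕ) → List ℕ → Bool
  | [], L => !(Nat.beq L.length 23)
  | p :: ps, L => Nat.blt L.length 23 ||
      (go ps (L.filter (fun x => !(tst x p.2 p.1))) && go ps (L.filter (fun x => !(tst x p.1 p.2))))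

def ok (t : ℕ → ℕ → Bool) (ps : List (ℕ × ℕ)) (x : ℕ) : Bool :=
  ps.all (fun p => if t p.1 p.2 then !(tst x p.2 p.1) else !(tst x p.1 p.2))

lemma go_spec (t : ℕ → ℕ → Bool) : ∀ (ps : List (ℕ × ℕ)) (L : List ℕ), go ps L = true →
    (L.filter (ok t ps)).length ≠ 23 := by
  intro ps
  induction ps with
  | nil =>
    intro L h
    have : L.filter (ok t []) = L := by
      apply List.filter_eq_self.2
      intro a _; simp [ok]
    rw [this]
    intro h23
    simp [go, h23] at h
  | cons p ps ih =>
    intro L h
    simp only [go, Bool.or_eq_true, Bool.and_eq_true, Nat.blt_eq] at h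
    rcases h with h | ⟨h1, h2⟩
    · have := List.length_filter_le (ok t (p :: ps)) L
      omega
    · by_cases ht : t p.1 p.2 = true
      · have := ih _ h1
        rw [List.filter_filter] at this
        have e : (fun a => ok t ps a && !(tst a p.2 p.1)) = ok t (p :: ps) := by
          funext a; simp [ok, ht, Bool.and_comm]
        rwa [e] at this
      · have := ih _ h2
        rw [List.filter_filter] at this
        have e : (fun a => ok t ps a && !(tst a p.1 p.2)) = ok t (p :: ps) := by
          funext a; simp [ok, ht, Bool.and_comm]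
        rwa [e] at this

def fixedP : List (ℕ × ℕ) := [(0,1),(1,2),(2,3),(3,4),(4,5),(5,6),(6,0)]
def freeP : List (ℕ × ℕ) :=
  [(0,2),(1,3),(2,4),(3,5),(4,6),(0,5),(1,6),(0,3),(1,4),(2,5),(3,6),(0,4),(1,5),(2,6)]

lemma go_true : go freeP (Lc.filter (ok (fun _ _ => true) fixedP)) = true := by decide +kernel

def r : Perm (Fin 7) := List.formPerm [0,1,2,3,4,5,6]

lemma r_mem : r ∈ P := by
  simp only [P, List.mem_map]
  exact ⟨[1,2,3,4,5,6], List.mem_permutations'.2 (List.Perm.refl _), rfl⟩

lemma cover : ∀ u v : Fin 7, u ≠ v →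
    ((u.val, v.val) ∈ fixedP ++ freeP ∨ (v.val, u.val) ∈ fixedP ++ freeP) := by decide +kernel

lemma bnd : ∀ p ∈ fixedP ++ freeP, ∃ u v : Fin 7, u ≠ v ∧ p = (u.val, v.val) := by decide +kernel

lemma fixed_r : ∀ p ∈ fixedP, ∃ u : Fin 7, p = (u.val, (r u).val) := by decide +kernel

open Classical in
lemma no23_aux (T : Fin 7 → Fin 7 → Prop) (hT : IsTournament T) (hr : ∀ i, T i (r i)) :
    (S T).ncard ≠ 23 := by
  let t : ℕ → ℕ → Bool := fun a b => decide (∃ u v : Fin 7, u.val = a ∧ v.val = b ∧ T u v)
  have ht : ∀ u v : Fin 7, t u.val v.val = true ↔ T u v := by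
    intro u v
    simp only [t, decide_eq_true_eq]
    constructor
    · rintro ⟨u', v', h1, h2, h3⟩
      rwa [Fin.ext h1, Fin.ext h2] at h3
    · intro h; exact ⟨u, v, rfl, rfl, h⟩
  have h1 := go_spec t freeP _ go_true
  rw [List.filter_filter] at h1
  have e : (fun a => ok t freeP a && ok (fun _ _ => true) fixedP a) = ok t (fixedP ++ freeP) := by
    funext a
    have : ok (fun _ _ => true) fixedP a = ok t fixedP a := by
      unfold ok
      rw [Bool.eq_iff_iff, List.all_eq_true, List.all_eq_true]
      refine forall₂_congr (fun p hp => ?_)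
      obtain ⟨u, rfl⟩ := fixed_r p hp
      have := (ht u (r u)).2 (hr u)
      simp [this]
    rw [this]
    simp [ok, List.all_append, Bool.and_comm]
  rw [e, ← P_enc, List.filter_map, List.length_map] at h1
  rw [ncard_S]
  convert h1 using 2
  apply List.filter_congr
  intro σ hσ
  have hne : ∀ i, σ i ≠ i := by
    intro i
    have := (P_cyc σ hσ).2
    rw [← Perm.mem_support, this]; simp
  rw [Bool.eq_iff_iff]
  simp only [decide_eq_true_eq, Function.comp, ok, List.all_eq_true]
  constructor
  · intro h p hp
    obtain ⟨u, v, huv, rfl⟩ := bnd p hp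
    simp only [P_tst σ hσ]
    by_cases hb : t u.val v.val = true
    · simp only [hb, if_true, Bool.not_eq_true', decide_eq_false_iff_not]
      intro hs
      have h1 := h v
      rw [hs] at h1
      exact ((hT.2 u v huv).1 ((ht u v).1 hb)) h1
    · simp only [hb]
      simp only [Bool.false_eq_true, if_false, Bool.not_eq_true', decide_eq_false_iff_not]
      intro hs
      have h1 := h u
      rw [hs] at h1
      exact hb ((ht u v).2 h1)
  · intro h i
    rcases cover i (σ i) (hne i).symm with hc | hc
    · have := h _ hc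
      simp only [P_tst σ hσ] at this
      by_contra hn
      have hb : ¬ t i.val (σ i).val = true := fun hb => hn ((ht _ _).1 hb)
      simp [hb] at this
    · have := h _ hc
      simp only [P_tst σ hσ] at this
      by_contra hn
      have hb : t (σ i).val i.val = true := (ht _ _).2 ((hT.2 _ _ (hne i)).2 hn)
      simp [hb] at this

lemma no23 (T : Fin 7 → Fin 7 → Prop) (hT : IsTournament T) : (S T).ncard ≠ 23 := by
  intro h
  have hne : (S T).Nonempty := Set.nonempty_of_ncard_ne_zero (by omega)
  obtain ⟨σ, h1, h2, h3⟩ := hne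
  have hconj : IsConj r σ := by
    rw [Perm.isConj_iff_cycleType_eq, (cyc_iff σ).1 ⟨h1, h2⟩, (cyc_iff r).1 (P_cyc r r_mem)]
  obtain ⟨c, hc⟩ := isConj_iff.1 hconj
  let T' : Fin 7 → Fin 7 → Prop := fun u v => T (c u) (c v)
  have hT' : IsTournament T' :=
    ⟨fun u => hT.1 _, fun u v huv => hT.2 _ _ (fun h => huv (c.injective h))⟩
  have hr : ∀ i, T' i (r i) := by
    intro i
    have := h3 (c i)
    rw [← hc] at this
    simpa [T'] using this
  apply no23_aux T' hT' hr
  rw [← h]
  have hinj : Function.Injective (fun τ : Perm (Fin 7) => c * τ * c⁻¹) := by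
    intro a b hab
    simpa using hab
  rw [← Set.ncard_image_of_injective (S T') hinj]
  congr 1
  ext τ
  simp only [S, Set.mem_image, Set.mem_ofPred_eq]
  constructor
  · rintro ⟨ρ, ⟨g1, g2, g3⟩, rfl⟩
    have := (cyc_iff (c * ρ * c⁻¹)).2 (by rw [Perm.cycleType_conj]; exact (cyc_iff ρ).1 ⟨g1, g2⟩)
    refine ⟨this.1, this.2, fun i => ?_⟩
    have := g3 (c⁻¹ i)
    simpa [T'] using this
  · rintro ⟨g1, g2, g3⟩
    refine ⟨c⁻¹ * τ * c, ?_, by group⟩
    have h' : (c⁻¹ * τ * c).cycleType = {7} := by
      have := Perm.cycleType_conj (σ := τ) (τ := c⁻¹)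
      rw [inv_inv] at this
      rw [this]; exact (cyc_iff τ).1 ⟨g1, g2⟩
    have := (cyc_iff _).2 h'
    refine ⟨this.1, this.2, fun i => ?_⟩
    have := g3 (c i)
    simpa [T'] using this

/-- The Paley tournament on seven vertices. -/
def Q (u v : Fin 7) : Prop := v - u = 1 ∨ v - u = 2 ∨ v - u = 4

instance : DecidableRel Q := fun u v => by unfold Q; infer_instance

lemma Q_tour : IsTournament Q := by
  constructor <;> decide

lemma Q_count : (S Q).ncard = 24 := by
  rw [ncard_S]
  have : (P.filter (fun σ => decide (∀ i, Q i (σ i)))).length = 24 := by decide +kernel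
  rw [← this]
  congr 1
  apply List.filter_congr
  intro σ _
  exact decide_eq_decide.2 Iff.rfl

/-- It is not true that for every `n ≥ 1` every `h ≤ hMax n` is the number of Hamiltonian circuits
of some `n`-tournament. -/
theorem result : ¬ ∀ n : ℕ, 1 ≤ n → ∀ h : ℕ, h ≤ hMax n →
    ∃ T : Fin n → Fin n → Prop, IsTournament T ∧ numHam T = h := by
  intro H
  have hb : BddAbove {h | ∃ T : Fin 7 → Fin 7 → Prop, IsTournament T ∧ numHam T = h} := by
    refine ⟨Nat.card (Perm (Fin 7)), ?_⟩
    rintro h ⟨T, _, rfl⟩
    rw [numHam_eq]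
    exact Set.ncard_le_card _
  have h24 : 24 ≤ hMax 7 := le_csSup hb ⟨Q, Q_tour, by rw [numHam_eq, Q_count]⟩
  obtain ⟨T, hT, h⟩ := H 7 (by norm_num) 23 (by omega)
  rw [numHam_eq] at h
  exact no23 T hT h

end Pool.Agent.Results.MP_9038fc_co.Gap7
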